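import Pool.Agent.H447.QR.Stm

set_option autoImplicit false

open WeierstrassCurve

namespace Pool.Agent.H278.QR.SA

open Pool.Agent.H447.QR

/-- the shape of the rational points of `y² = x³ + a x + b` -/
theorem shape (a b : ℤ) (X Y : ℚ) (h : Y ^ 2 = X ^ 3 + a * X + b) :
    ∃ (r q : ℤ) (s : ℕ), 0 < s ∧ IsCoprime r (s : ℤ) ∧ X * (s : ℚ) ^ 2 = r ∧ Y * (s : ℚ) ^ 3 = q ∧
      q ^ 2 = r ^ 3 + a * r * (s : ℤ) ^ 4 + b * (s : ℤ) ^ 6 := by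
  have hd0 : (X.den : ℚ) ≠ 0 := by exact_mod_cast X.den_nz
  have he0 : (Y.den : ℚ) ≠ 0 := by exact_mod_cast Y.den_nz
  have hX : X * X.den = X.num := Rat.mul_den_eq_num X
  have hY : Y * Y.den = Y.num := Rat.mul_den_eq_num Y
  -- the integral equation
  have h1 : (Y.num : ℚ) ^ 2 * (X.den : ℚ) ^ 3 =
      ((X.num : ℚ) ^ 3 + a * X.num * (X.den : ℚ) ^ 2 + b * (X.den : ℚ) ^ 3) * (Y.den : ℚ) ^ 2 := by
    rw [← hX, ← hY]
    linear_combination (Y.den : ℚ) ^ 2 * (X.den : ℚ) ^ 3 * h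
  have h2 : Y.num ^ 2 * (X.den : ℤ) ^ 3 =
      (X.num ^ 3 + a * X.num * (X.den : ℤ) ^ 2 + b * (X.den : ℤ) ^ 3) * (Y.den : ℤ) ^ 2 := by
    exact_mod_cast h1
  have hc1 : IsCoprime X.num (X.den : ℤ) := Int.isCoprime_iff_gcd_eq_one.2 X.reduced
  have hc2 : IsCoprime Y.num (Y.den : ℤ) := Int.isCoprime_iff_gcd_eq_one.2 Y.reduced
  have hc3 : IsCoprime (X.num ^ 3 + a * X.num * (X.den : ℤ) ^ 2 + b * (X.den : ℤ) ^ 3) (X.den : ℤ) := by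
    have h3 : IsCoprime (X.num ^ 3) (X.den : ℤ) := hc1.pow_left
    have h4 := h3.add_mul_left_left (a * X.num * (X.den : ℤ) + b * (X.den : ℤ) ^ 2)
    have h5 : X.num ^ 3 + (X.den : ℤ) * (a * X.num * (X.den : ℤ) + b * (X.den : ℤ) ^ 2) =
      X.num ^ 3 + a * X.num * (X.den : ℤ) ^ 2 + b * (X.den : ℤ) ^ 3 := by ring
    rwa [h5] at h4
  have hdvd1 : (X.den : ℤ) ^ 3 ∣ (Y.den : ℤ) ^ 2 := by
    have h6 : (X.den : ℤ) ^ 3 ∣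
        (X.num ^ 3 + a * X.num * (X.den : ℤ) ^ 2 + b * (X.den : ℤ) ^ 3) * (Y.den : ℤ) ^ 2 := by
      rw [← h2]
      exact Dvd.intro_left _ rfl
    exact (hc3.symm.pow_left (m := 3)).dvd_of_dvd_mul_left h6
  have hdvd2 : (Y.den : ℤ) ^ 2 ∣ (X.den : ℤ) ^ 3 := by
    have h6 : (Y.den : ℤ) ^ 2 ∣ Y.num ^ 2 * (X.den : ℤ) ^ 3 := by
      rw [h2]
      exact Dvd.intro_left _ rfl
    exact (hc2.symm.pow (m := 2) (n := 2)).dvd_of_dvd_mul_left h6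
  have heq : X.den ^ 3 = Y.den ^ 2 := by
    apply Nat.dvd_antisymm
    · exact_mod_cast hdvd1
    · exact_mod_cast hdvd2
  have hde : X.den ∣ Y.den := by
    rw [← Nat.pow_dvd_pow_iff (two_ne_zero), ← heq]
    exact ⟨X.den, by ring⟩
  obtain ⟨s, hs⟩ := hde
  have hdpos : 0 < X.den := X.den_pos
  have hss : X.den = s ^ 2 := by
    rw [hs] at heq
    have h7 : X.den ^ 2 * X.den = X.den ^ 2 * s ^ 2 := by
      calc X.den ^ 2 * X.den = X.den ^ 3 := by ring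
        _ = (X.den * s) ^ 2 := heq
        _ = X.den ^ 2 * s ^ 2 := by ring
    exact Nat.eq_of_mul_eq_mul_left (by positivity) h7
  have hs3 : Y.den = s ^ 3 := by
    rw [hs, hss]
    ring
  have hspos : 0 < s := by
    rcases Nat.eq_zero_or_pos s with h0 | h0
    · rw [h0] at hss
      norm_num at hss
    · exact h0
  refine ⟨X.num, Y.num, s, hspos, ?_, ?_, ?_, ?_⟩
  · have h8 : (X.den : ℤ) = (s : ℤ) ^ 2 := by exact_mod_cast hss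
    rw [h8] at hc1
    exact (IsCoprime.pow_right_iff (by norm_num)).1 hc1
  · rw [← hX, hss]
    push_cast
    ring
  · rw [← hY, hs3]
    push_cast
    ring
  · have h8 : (X.den : ℤ) = (s : ℤ) ^ 2 := by exact_mod_cast hss
    have h9 : (Y.den : ℤ) = (s : ℤ) ^ 3 := by exact_mod_cast hs3
    rw [h8, h9] at h2
    have hs6 : ((s : ℤ) ^ 6) ≠ 0 := by
      have : (s : ℤ) ≠ 0 := by exact_mod_cast hspos.ne'
      positivity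
    apply mul_right_cancel₀ hs6
    linear_combination h2

theorem t_SA : S_SA := by
  intro a b X Y h
  have heq : Y ^ 2 = X ^ 3 + (a : ℚ) * X + b := by
    have h1 := h.1
    rw [Affine.equation_iff] at h1
    simp only at h1
    linear_combination h1
  obtain ⟨r, q, s, hs, hcop, hX, hY, hq⟩ := shape a b X Y heq
  have hs0 : (s : ℤ) ≠ 0 := by exact_mod_cast hs.ne'
  have hsQ : (s : ℚ) ≠ 0 := by exact_mod_cast hs.ne'
  obtain ⟨S, hS⟩ : ∃ S : ℤ, S = (s : ℤ) := ⟨_, rfl⟩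
  rw [← hS] at hcop hq hs0
  have hc6 : IsCoprime r (S ^ 6) := hcop.pow_right
  obtain ⟨u, v, huv⟩ := hc6
  obtain ⟨k, hk⟩ : ∃ k : ℤ, k = q * u := ⟨_, rfl⟩
  obtain ⟨t, ht⟩ : ∃ t : ℤ, t = - q * v := ⟨_, rfl⟩
  have hrk : r * k = q + S ^ 6 * t := by
    rw [hk, ht]
    linear_combination q * huv
  have hc4 : IsCoprime (S ^ 4) r := (hcop.pow_right (n := 4)).symm
  have hc6' : IsCoprime (S ^ 6) r := (hcop.pow_right (n := 6)).symm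
  have hc6'' : IsCoprime (S ^ 6) (r ^ 2) := hc6'.pow_right
  -- first congruence
  obtain ⟨t2, ht2⟩ : S ^ 6 ∣ r * k ^ 2 - r ^ 2 - a * S ^ 4 := by
    apply hc6'.dvd_of_dvd_mul_left
    refine ⟨b + 2 * q * t + S ^ 6 * t ^ 2, ?_⟩
    linear_combination (r * k + q + S ^ 6 * t) * hrk + hq
  obtain ⟨c4, hc4'⟩ : S ^ 4 ∣ k ^ 2 - r := by
    apply hc4.dvd_of_dvd_mul_left
    refine ⟨a + S ^ 2 * t2, ?_⟩
    linear_combination ht2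
  obtain ⟨d, hd⟩ : S ^ 4 ∣ k ^ 3 - 3 * r * k + 2 * q := by
    apply hc4.dvd_of_dvd_mul_left
    refine ⟨a * k + S ^ 2 * (k * t2 - 2 * r * t), ?_⟩
    linear_combination k * ht2 - 2 * r * hrk
  obtain ⟨e, he⟩ : S ^ 6 ∣ k ^ 4 - 6 * r * k ^ 2 + 8 * q * k - 3 * r ^ 2 - 4 * a * S ^ 4 := by
    apply hc6''.dvd_of_dvd_mul_left
    refine ⟨t2 * (r * k ^ 2 + r ^ 2 + a * S ^ 4) + a ^ 2 * S ^ 2 + 2 * r ^ 2 * t2 - 8 * r ^ 2 * k * t, ?_⟩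
    linear_combination (r * k ^ 2 + r ^ 2 + a * S ^ 4) * ht2 + 2 * r ^ 2 * ht2 - 8 * r ^ 2 * k * hrk
  have hcc : k ^ 2 - r = S ^ 2 * (S ^ 2 * c4) := by
    linear_combination hc4'
  set c : ℤ := S ^ 2 * c4 with hcdef
  refine ⟨⟨S ^ 2, 4 * k, 6 * c, 4 * d, e⟩, ⟨?_, ?_⟩, ?_⟩
  · -- I
    apply mul_left_cancel₀ (pow_ne_zero 4 hs0)
    show S ^ 4 * (12 * S ^ 2 * e - 3 * (4 * k) * (4 * d) + (6 * c) ^ 2) = S ^ 4 * (-48 * a)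
    linear_combination (-12 : ℤ) * he + 48 * k * hd - 36 * (k ^ 2 - r + S ^ 2 * c) * hcc
  · -- J
    apply mul_left_cancel₀ (pow_ne_zero 6 hs0)
    show S ^ 6 * (72 * S ^ 2 * (6 * c) * e + 9 * (4 * k) * (6 * c) * (4 * d) - 27 * S ^ 2 * (4 * d) ^ 2 -
      27 * e * (4 * k) ^ 2 - 2 * (6 * c) ^ 3) = S ^ 6 * (-1728 * b)
    have e1 : S ^ 6 * (72 * S ^ 2 * (6 * c) * e + 9 * (4 * k) * (6 * c) * (4 * d) -
        27 * S ^ 2 * (4 * d) ^ 2 - 27 * e * (4 * k) ^ 2 - 2 * (6 * c) ^ 3) =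
        432 * ((S ^ 2 * c) * (S ^ 6 * e) + 2 * k * (S ^ 2 * c) * (S ^ 4 * d) - (S ^ 4 * d) ^ 2 -
          (S ^ 6 * e) * k ^ 2 - (S ^ 2 * c) ^ 3) := by ring
    rw [e1, ← hcc, ← hd, ← he]
    linear_combination (-1728 : ℤ) * hq
  · -- the point
    have hSQ : (S : ℚ) = (s : ℚ) := by
      rw [hS]
      norm_cast
    have hccQ : (k : ℚ) ^ 2 - r = (s : ℚ) ^ 2 * c := by
      rw [← hSQ]
      exact_mod_cast hcc
    have hdQ : (k : ℚ) ^ 3 - 3 * r * k + 2 * q = (s : ℚ) ^ 4 * d := by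
      rw [← hSQ]
      exact_mod_cast hd
    refine ⟨1, 0, (s : ℚ), X, Y, h, hsQ, ?_, ?_, ?_, rfl⟩
    · show (s : ℚ) ^ 2 = ((S ^ 2 : ℤ) : ℚ) * 1 ^ 4 + ((4 * k : ℤ) : ℚ) * 1 ^ 3 * 0 +
        ((6 * c : ℤ) : ℚ) * 1 ^ 2 * 0 ^ 2 + ((4 * d : ℤ) : ℚ) * 1 * 0 ^ 3 + ((e : ℤ) : ℚ) * 0 ^ 4
      push_cast
      rw [hSQ]
      ring
    · show 48 * (s : ℚ) ^ 2 * X = Qf.h4 ⟨((S ^ 2 : ℤ) : ℚ), ((4 * k : ℤ) : ℚ), ((6 * c : ℤ) : ℚ),
        ((4 * d : ℤ) : ℚ), ((e : ℤ) : ℚ)⟩ 1 0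
      unfold Qf.h4
      push_cast
      rw [hSQ]
      linear_combination 48 * hX - 48 * hccQ
    · show 64 * (s : ℚ) ^ 3 * Y = Qf.h6 ⟨((S ^ 2 : ℤ) : ℚ), ((4 * k : ℤ) : ℚ), ((6 * c : ℤ) : ℚ),
        ((4 * d : ℤ) : ℚ), ((e : ℤ) : ℚ)⟩ 1 0
      unfold Qf.h6
      push_cast
      rw [hSQ]
      linear_combination 64 * hY - 96 * k * hccQ + 32 * hdQ

end Pool.Agent.H278.QR.SA
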